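import Pool.Agent.N343.TC.Stm

/-! Project TC, part ND: the normal derivative from a smooth extension (helper383 for helper343). -/

set_option autoImplicit false

open MeasureTheory Set Filter Topology Metric Complex
open scoped ContDiff RealInnerProductSpace ComplexConjugate

namespace Pool.Agent.N383.TC.ND

open Pool.Agent.N343.TC

theorem slope_of_grad {f : ℂ → ℝ} {x n : ℂ} {a : ℝ} (hn : ‖n‖ = 1)
    (h : HasGradientAt f (a • n) x) :
    Tendsto (fun t : ℝ => (f x - f (x - t • n)) / t) (𝓝[>] 0) (𝓝 a) := by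
  have h1 := h.hasFDerivAt
  have h2 : HasDerivAt (fun t : ℝ => x - t • n) (-n) 0 := by
    have h3 := ((hasDerivAt_id (0 : ℝ)).smul_const n).const_sub x
    rw [one_smul] at h3
    exact h3
  have h3 : HasDerivAt (fun t : ℝ => f (x - t • n)) (-a) 0 := by
    have h4 : x - (0 : ℝ) • n = x := by rw [zero_smul, sub_zero]
    have h5 : HasFDerivAt f ((InnerProductSpace.toDual ℝ ℂ) (a • n)) (x - (0 : ℝ) • n) := by
      rw [h4]
      exact h1
    have h6 := h5.comp_hasDerivAt (0 : ℝ) h2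
    refine h6.congr_deriv ?_
    rw [InnerProductSpace.toDual_apply_apply, inner_neg_right, inner_smul_left,
      real_inner_self_eq_norm_sq, hn]
    simp
  have h7 := h3.tendsto_slope
  have h8 : Tendsto (fun t : ℝ => -slope (fun t : ℝ => f (x - t • n)) 0 t) (𝓝[>] 0) (𝓝 (- -a)) :=
    (h7.mono_left (nhdsWithin_mono _ fun t ht => ne_of_gt ht)).neg
  rw [neg_neg] at h8
  refine h8.congr fun t => ?_
  rw [slope_def_field, zero_smul, sub_zero, sub_zero]
  ring

theorem main : S_ND := by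
  rintro Ω V x n u v c ⟨hn, U, ρ, hU, hxU, hρ, hΩ, s, hs, hg⟩ hx hV hxV huv hv
  have hxc : x ∈ closure Ω := frontier_subset_closure hx
  -- `ρ x ≤ 0`
  have hρx : ρ x ≤ 0 := by
    by_contra hcon
    push Not at hcon
    have h1 : IsOpen (U ∩ {y | 0 < ρ y}) := hU.inter (isOpen_lt continuous_const hρ.continuous)
    obtain ⟨y, ⟨hy1, hy2⟩, hy3⟩ := mem_closure_iff.1 hxc _ h1 ⟨hxU, hcon⟩
    have h2 : y ∈ Ω ∩ U := ⟨hy3, hy1⟩
    rw [hΩ] at h2
    have h3 : 0 < ρ y := hy2
    exact absurd h2.2 (not_lt.2 h3.le)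
  have hgr : HasGradientAt ρ (s • n) x := by
    rw [← hg]
    exact ((hρ.differentiable (by simp)).differentiableAt).hasGradientAt
  have hpos : ∀ᶠ t : ℝ in 𝓝[>] 0, 0 < t := eventually_mem_nhdsWithin
  have hcont : Tendsto (fun t : ℝ => x - t • n) (𝓝[>] 0) (𝓝 x) := by
    have h1 : Continuous fun t : ℝ => x - t • n := by fun_prop
    have h2 := h1.tendsto 0
    rw [zero_smul, sub_zero] at h2
    exact h2.mono_left nhdsWithin_le_nhds
  have hlt : ∀ᶠ t : ℝ in 𝓝[>] 0, ρ (x - t • n) < 0 := by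
    have h1 := (slope_of_grad hn hgr).eventually_const_lt hs
    filter_upwards [h1, hpos] with t ht1 ht2
    have h3 : 0 < ρ x - ρ (x - t • n) := by
      rcases div_pos_iff.1 ht1 with h4 | h4
      · exact h4.1
      · exact absurd h4.2 (not_lt.2 ht2.le)
    linarith
  have hin : ∀ᶠ t : ℝ in 𝓝[>] 0, x - t • n ∈ V ∩ closure Ω := by
    filter_upwards [hlt, hcont.eventually (hU.mem_nhds hxU), hcont.eventually (hV.mem_nhds hxV)]
      with t h1 h2 h3
    have h4 : x - t • n ∈ {y | y ∈ U ∧ ρ y < 0} := ⟨h2, h1⟩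
    rw [← hΩ] at h4
    exact ⟨h3, subset_closure h4.1⟩
  refine (slope_of_grad hn hv).congr' ?_
  filter_upwards [hin] with t ht
  rw [huv ht, huv ⟨hxV, hxc⟩]

end Pool.Agent.N383.TC.ND

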