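import Pool.Agent.N936.TC.Stm

/-!
# Project TC, leaf WCONN: the set `W` is connected (helper383)
-/

set_option autoImplicit false

namespace Pool.Agent.N383.TC

open Set Topology Pool.Agent.N936.TC

/-- the point of the unit interval with a given value -/
noncomputable def pr (x : ℝ) : I := Set.projIcc 0 1 zero_le_one x

theorem pr_cont : Continuous pr := continuous_projIcc (h := zero_le_one)

theorem pr_coe {x : ℝ} (h0 : 0 ≤ x) (h1 : x ≤ 1) : ((pr x : I) : ℝ) = x := by
  unfold pr
  rw [Set.projIcc_of_mem zero_le_one ⟨h0, h1⟩]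

theorem pr_val (s : I) : pr (s : ℝ) = s := Set.projIcc_val zero_le_one s

theorem pr_zero : pr 0 = 0 := by
  have := pr_val 0
  simpa using this

theorem pr_one : pr 1 = 1 := by
  have := pr_val 1
  simpa using this

section

variable {X : Type} [TopologicalSpace X] {Φ : Q × Bool × I → X} (hΦ : Continuous Φ) {h : X × X → Bool}
  (hh : ContinuousOn h (Wset Φ))

/-- the value at a point of a page -/
noncomputable def F (Φ : Q × Bool × I → X) (h : X × X → Bool) (q r : Q) (i j : Bool) (a b : ℝ) : Bool :=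
  h (Φ (q, i, pr a), Φ (r, j, pr b))

include hΦ hh in
theorem hor (q r : Q) (i j : Bool) {a a' b : ℝ} (ha : 0 ≤ a ∧ a ≤ 1) (ha' : 0 ≤ a' ∧ a' ≤ 1)
    (hb : 0 ≤ b ∧ b ≤ 1) (hM : ∀ c ∈ uIcc a a', M1 i c b) : F Φ h q r i j a b = F Φ h q r i j a' b := by
  set g : ℝ → X × X := fun c => (Φ (q, i, pr c), Φ (r, j, pr b)) with hg
  have hgc : Continuous g := by
    refine Continuous.prodMk (hΦ.comp ?_) continuous_const
    exact continuous_const.prodMk (continuous_const.prodMk pr_cont)
  have hsub : g '' uIcc a a' ⊆ Wset Φ := by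
    rintro _ ⟨c, hc, rfl⟩
    refine ⟨q, i, pr c, r, j, pr b, ?_, rfl⟩
    have h01 : c ∈ Icc (0 : ℝ) 1 := uIcc_subset_Icc ⟨ha.1, ha.2⟩ ⟨ha'.1, ha'.2⟩ hc
    rw [pr_coe h01.1 h01.2, pr_coe hb.1 hb.2]
    exact hM c hc
  exact (isPreconnected_uIcc.image g hgc.continuousOn).constant (hh.mono hsub)
    (mem_image_of_mem g left_mem_uIcc) (mem_image_of_mem g right_mem_uIcc)

include hΦ hh in
theorem ver (q r : Q) (i j : Bool) {a b b' : ℝ} (ha : 0 ≤ a ∧ a ≤ 1) (hb : 0 ≤ b ∧ b ≤ 1)
    (hb' : 0 ≤ b' ∧ b' ≤ 1) (hM : ∀ c ∈ uIcc b b', M1 i a c) : F Φ h q r i j a b = F Φ h q r i j a b' := by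
  set g : ℝ → X × X := fun c => (Φ (q, i, pr a), Φ (r, j, pr c)) with hg
  have hgc : Continuous g := by
    refine Continuous.prodMk continuous_const (hΦ.comp ?_)
    exact continuous_const.prodMk (continuous_const.prodMk pr_cont)
  have hsub : g '' uIcc b b' ⊆ Wset Φ := by
    rintro _ ⟨c, hc, rfl⟩
    refine ⟨q, i, pr a, r, j, pr c, ?_, rfl⟩
    have h01 : c ∈ Icc (0 : ℝ) 1 := uIcc_subset_Icc ⟨hb.1, hb.2⟩ ⟨hb'.1, hb'.2⟩ hc
    rw [pr_coe h01.1 h01.2, pr_coe ha.1 ha.2]
    exact hM c hc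
  exact (isPreconnected_uIcc.image g hgc.continuousOn).constant (hh.mono hsub)
    (mem_image_of_mem g left_mem_uIcc) (mem_image_of_mem g right_mem_uIcc)

end

theorem t_wconn : S_WCONN := by
  intro σ X _ _ Φ hΦ hbot htop hT
  refine ⟨?_, ?_⟩
  · refine ⟨(Φ (fun _ => false, false, pr 0), Φ (fun _ => false, false, pr (1 / 8))),
      fun _ => false, false, pr 0, fun _ => false, false, pr (1 / 8), ?_, rfl⟩
    rw [pr_coe (by norm_num) (by norm_num)]
    exact Or.inl (pr_coe (by norm_num) (by norm_num))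
  refine isPreconnected_of_forall_constant fun h hh => ?_
  have H := fun q r i j {a a' b : ℝ} => hor hΦ hh q r i j (a := a) (a' := a') (b := b)
  have V := fun q r i j {a b b' : ℝ} => ver hΦ hh q r i j (a := a) (b := b) (b' := b')
  -- the vertices
  have hv : ∀ q r i i' j b, F Φ h q r i j 0 b = F Φ h q r i' j 0 b := by
    intro q r i i' j b
    unfold F
    rw [pr_zero, hbot q i i']
  have hv1 : ∀ q r i i' j b, F Φ h q r i j 1 b = F Φ h (σ i q) r i' j 0 b := by
    intro q r i i' j b
    unfold F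
    rw [pr_zero, pr_one, htop q i i']
  have hw1 : ∀ q r i j j' a, F Φ h q r i j a 1 = F Φ h q (σ j r) i j' a 0 := by
    intro q r i j j' a
    unfold F
    rw [pr_zero, pr_one, htop r j j']
  set al : Bool → Q → Q → Bool := fun j q r => F Φ h q r false j 0 (1 / 8) with hal
  set be : Bool → Q → Q → Bool := fun j q r => F Φ h q r false j 0 (5 / 8) with hbe
  -- moves along a page
  have hFal : ∀ q r j (s : ℝ), 0 ≤ s → s ≤ 1 → F Φ h q r false j s (1 / 8) = al j q r := by
    intro q r j s h0 h1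
    exact H q r false j ⟨h0, h1⟩ ⟨le_rfl, zero_le_one⟩ ⟨by norm_num, by norm_num⟩ fun c _ => Or.inl rfl
  have hTbe : ∀ q r j (s : ℝ), 0 ≤ s → s ≤ 1 → F Φ h q r true j s (5 / 8) = be j q r := by
    intro q r j s h0 h1
    refine (H q r true j ⟨h0, h1⟩ (a' := 0) ⟨le_rfl, zero_le_one⟩ ⟨by norm_num, by norm_num⟩
      fun c _ => Or.inl rfl).trans ?_
    exact hv q r true false j _
  have hFbe : ∀ q r j (s : ℝ), 0 ≤ s → s ≤ 1 / 4 → F Φ h q r false j s (5 / 8) = be j q r := by
    intro q r j s h0 h1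
    refine H q r false j ⟨h0, by linarith⟩ ⟨le_rfl, zero_le_one⟩ ⟨by norm_num, by norm_num⟩ fun c hc => ?_
    rw [uIcc_of_ge h0] at hc
    exact Or.inr (Or.inl ⟨hc.2.trans h1, rfl⟩)
  have hTal : ∀ q r j (s : ℝ), 0 ≤ s → s ≤ 1 / 4 → F Φ h q r true j s (1 / 8) = al j q r := by
    intro q r j s h0 h1
    refine (H q r true j ⟨h0, by linarith⟩ (a' := 0) ⟨le_rfl, zero_le_one⟩ ⟨by norm_num, by norm_num⟩
      fun c hc => ?_).trans ?_
    · rw [uIcc_of_ge h0] at hc
      exact Or.inr (Or.inr ⟨hc.2.trans h1, rfl⟩)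
    · exact hv q r true false j _
  -- the relations
  have r1 : ∀ j q r, al j q r = al j (σ false q) r := by
    intro j q r
    rw [← hFal q r j 1 zero_le_one le_rfl]
    exact hv1 q r false false j _
  have r2 : ∀ j q r, al j q r = be j q r := by
    intro j q r
    rw [← hFal q r j (1 / 4) (by norm_num) (by norm_num), ← hFbe q r j (1 / 4) (by norm_num) le_rfl]
    refine V q r false j ⟨by norm_num, by norm_num⟩ ⟨by norm_num, by norm_num⟩ ⟨by norm_num, by norm_num⟩
      fun c hc => ?_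
    rw [uIcc_of_le (by norm_num)] at hc
    exact Or.inr (Or.inr (Or.inl ⟨rfl, hc.1, hc.2⟩))
  have r3 : ∀ j q r, be j q r = be j (σ true q) r := by
    intro j q r
    rw [← hTbe q r j 1 zero_le_one le_rfl]
    exact hv1 q r true false j _
  have r4 : ∀ j j' q r, be j q r = al j' q (σ j r) := by
    intro j j' q r
    rw [← hTbe q r j (1 / 4) (by norm_num) (by norm_num),
      ← hTal q (σ j r) j' (1 / 4) (by norm_num) le_rfl]
    have e1 : F Φ h q r true j (1 / 4) (5 / 8) = F Φ h q r true j (1 / 4) 1 := by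
      refine V q r true j ⟨by norm_num, by norm_num⟩ ⟨by norm_num, by norm_num⟩ ⟨by norm_num, by norm_num⟩
        fun c hc => ?_
      rw [uIcc_of_le (by norm_num)] at hc
      exact Or.inr (Or.inl ⟨rfl, Or.inl hc.1⟩)
    have e2 : F Φ h q (σ j r) true j' (1 / 4) 0 = F Φ h q (σ j r) true j' (1 / 4) (1 / 8) := by
      refine V q (σ j r) true j' ⟨by norm_num, by norm_num⟩ ⟨by norm_num, by norm_num⟩
        ⟨by norm_num, by norm_num⟩ fun c hc => ?_
      rw [uIcc_of_le (by norm_num)] at hc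
      exact Or.inr (Or.inl ⟨rfl, Or.inr hc.2⟩)
    rw [e1, hw1 q r true j j', e2]
  have r5 : ∀ j j' q r, al j q r = al j' q r := by
    intro j j' q r
    obtain ⟨r', rfl⟩ := (σ false).surjective r
    rw [← r4 false j q r', ← r4 false j' q r']
  set A : Q → Q → Bool := fun q r => al false q r with hA
  have a1 : ∀ i q r, A q r = A (σ i q) r := by
    intro i q r
    cases i
    · exact r1 false q r
    · show al false q r = al false (σ true q) r
      rw [r2, r3, ← r2]
  have a2 : ∀ j q r, A q r = A q (σ j r) := by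
    intro j q r
    show al false q r = al false q (σ j r)
    rw [r5 false j q r, r2 j q r, r4 j false q r]
  have hmem : ∀ q r : Q, (Φ (q, false, pr 0), Φ (r, false, pr (1 / 8))) ∈ Wset Φ := by
    intro q r
    refine ⟨q, false, pr 0, r, false, pr (1 / 8), ?_, rfl⟩
    exact Or.inl (pr_coe (by norm_num) (by norm_num))
  have hc1 : ∀ r, Continuous fun q => A q r := by
    intro r
    have hg : Continuous fun q : Q => ((Φ (q, false, pr 0), Φ (r, false, pr (1 / 8))) : X × X) := by
      refine Continuous.prodMk (hΦ.comp ?_) continuous_const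
      exact continuous_id.prodMk continuous_const
    exact hh.comp_continuous hg fun q => hmem q r
  have hc2 : ∀ q, Continuous fun r => A q r := by
    intro q
    have hg : Continuous fun r : Q => ((Φ (q, false, pr 0), Φ (r, false, pr (1 / 8))) : X × X) := by
      refine Continuous.prodMk continuous_const (hΦ.comp ?_)
      exact continuous_id.prodMk continuous_const
    exact hh.comp_continuous hg fun r => hmem q r
  have hcst : ∀ f : Q → Bool, Continuous f → (∀ i q, f q = f (σ i q)) → ∀ q q', f q = f q' := by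
    intro f hf hinv q q'
    have hD : IsClopen {q : Q | f q = true} := (isClopen_discrete ({true} : Set Bool)).preimage hf
    rcases hT {q : Q | f q = true} hD (fun i q => by
      show f q = true ↔ f (σ i q) = true
      rw [hinv i q]) with h1 | h1
    · have e1 : ∀ q, f q = false := by
        intro q
        by_contra hcon
        have : q ∈ {q : Q | f q = true} := by simpa using hcon
        rw [h1] at this
        exact this
      rw [e1 q, e1 q']
    · have e1 : ∀ q, f q = true := by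
        intro q
        have : q ∈ {q : Q | f q = true} := by rw [h1]; exact mem_univ _
        exact this
      rw [e1 q, e1 q']
  have hAll : ∀ q r q' r', A q r = A q' r' := by
    intro q r q' r'
    rw [hcst (fun q => A q r) (hc1 r) (fun i q => a1 i q r) q q']
    exact hcst (fun r => A q' r) (hc2 q') (fun j r => a2 j q' r) r r'
  -- all points
  have hpt : ∀ x ∈ Wset Φ, ∃ q r, h x = A q r := by
    rintro _ ⟨q, i, s, r, j, t, hM, rfl⟩
    refine ⟨q, r, ?_⟩
    have hs := s.2
    have ht := t.2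
    have hF : h (Φ (q, i, s), Φ (r, j, t)) = F Φ h q r i j s t := by
      unfold F
      rw [pr_val, pr_val]
    rw [hF]
    show _ = al false q r
    rw [r5 false j q r]
    set a : ℝ := (s : ℝ) with haa
    set b : ℝ := (t : ℝ) with hbb
    cases i
    · rcases hM with h1 | ⟨h1, h2⟩ | ⟨h1, h2, h3⟩ | ⟨h1, h2, h3, h4⟩
      · rw [h1]
        exact hFal q r j a hs.1 hs.2
      · rw [h2, r2]
        exact hFbe q r j a hs.1 h1
      · rw [h1]
        refine (V q r false j ⟨by norm_num, by norm_num⟩ ⟨ht.1, ht.2⟩ (b' := 1 / 8)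
          ⟨by norm_num, by norm_num⟩ fun c hc => ?_).trans (hFal q r j _ (by norm_num) (by norm_num))
        rw [uIcc_of_ge h2] at hc
        exact Or.inr (Or.inr (Or.inl ⟨rfl, hc.1, hc.2.trans h3⟩))
      · refine (V q r false j ⟨hs.1, hs.2⟩ ⟨ht.1, ht.2⟩ (b' := 1 / 8)
          ⟨by norm_num, by norm_num⟩ fun c hc => ?_).trans (hFal q r j _ hs.1 hs.2)
        have hc' : c ∈ Icc (1 / 16 : ℝ) (3 / 16) :=
          uIcc_subset_Icc ⟨h3, h4⟩ ⟨by norm_num, by norm_num⟩ hc
        exact Or.inr (Or.inr (Or.inr ⟨h1, h2, hc'.1, hc'.2⟩))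
    · rcases hM with h1 | ⟨h1, h2 | h2⟩ | ⟨h1, h2⟩
      · rw [h1, r2]
        exact hTbe q r j a hs.1 hs.2
      · rw [h1, r2]
        refine (V q r true j ⟨by norm_num, by norm_num⟩ ⟨ht.1, ht.2⟩ (b' := 5 / 8)
          ⟨by norm_num, by norm_num⟩ fun c hc => ?_).trans (hTbe q r j _ (by norm_num) (by norm_num))
        rw [uIcc_of_ge h2] at hc
        exact Or.inr (Or.inl ⟨rfl, Or.inl hc.1⟩)
      · rw [h1]
        refine (V q r true j ⟨by norm_num, by norm_num⟩ ⟨ht.1, ht.2⟩ (b' := 1 / 8)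
          ⟨by norm_num, by norm_num⟩ fun c hc => ?_).trans (hTal q r j _ (by norm_num) le_rfl)
        rw [uIcc_of_le h2] at hc
        exact Or.inr (Or.inl ⟨rfl, Or.inr hc.2⟩)
      · rw [h2]
        exact hTal q r j a hs.1 h1
  intro x hx y hy
  obtain ⟨q, r, e1⟩ := hpt x hx
  obtain ⟨q', r', e2⟩ := hpt y hy
  rw [e1, e2]
  exact hAll q r q' r'

end Pool.Agent.N383.TC
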